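import Pool.Agent.Lib.BorsukUlam.Chains
import Mathlib.Analysis.InnerProductSpace.PiL2
import Mathlib.Topology.UniformSpace.HeineCantor
import Mathlib.Topology.MetricSpace.Pseudo.Pi

/-!
The Borsuk-Ulam theorem: an odd continuous map from the n-sphere to R^n has a zero.
-/

namespace Pool.Agent.Lib.BorsukUlam

open Finsupp

/-- The l1 unit sphere in the span of the first `k+1` coordinates. -/
def K (n k : ℕ) : Set (Fin (n + 1) → ℝ) :=
  {x | ∑ i, |x i| = 1 ∧ ∀ i : Fin (n + 1), k < i.val → x i = 0}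

/-- The free involution. -/
def nu (n : ℕ) (p : (Fin (n + 1) → ℝ) × ZMod 2) : (Fin (n + 1) → ℝ) × ZMod 2 := (-p.1, p.2 + 1)

theorem nu_nu (n : ℕ) (p : (Fin (n + 1) → ℝ) × ZMod 2) : nu n (nu n p) = p := by
  have z : (1 : ZMod 2) + 1 = 0 := rfl
  ext1
  · simp [nu]
  · simp [nu, add_assoc, z]

/-- Small lists. -/
def Small (n k : ℕ) (ε : ℝ) (l : List ((Fin (n + 1) → ℝ) × ZMod 2)) : Prop :=
  ∀ p ∈ l, p.1 ∈ K n k ∧ ∀ q ∈ l, dist p.1 q.1 ≤ ε

theorem norm_le_of_mem_K {n k : ℕ} {x : Fin (n + 1) → ℝ} (hx : x ∈ K n k) : ‖x‖ ≤ 1 := by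
  rw [pi_norm_le_iff_of_nonneg zero_le_one]
  intro i
  rw [Real.norm_eq_abs, ← hx.1]
  exact Finset.single_le_sum (f := fun j => |x j|) (fun j _ => abs_nonneg _) (Finset.mem_univ i)

theorem neg_mem_K {n k : ℕ} {x : Fin (n + 1) → ℝ} (hx : x ∈ K n k) : -x ∈ K n k := by
  refine ⟨by simpa using hx.1, fun i hi => by simp [hx.2 i hi]⟩

theorem G_mem {n k : ℕ} (hk : k + 1 < n + 1) {x : Fin (n + 1) → ℝ} (hx : x ∈ K n k) {t : ℝ}
    (h0 : 0 ≤ t) (h1 : t ≤ 1) :
    (1 - t) • x + t • (Pi.single (⟨k + 1, hk⟩ : Fin (n + 1)) (1 : ℝ) : Fin (n + 1) → ℝ)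
      ∈ K n (k + 1) := by
  constructor
  · have : ∀ i, |((1 - t) • x + t • (Pi.single (⟨k + 1, hk⟩ : Fin (n + 1)) (1 : ℝ) :
        Fin (n + 1) → ℝ)) i| = (1 - t) * |x i| +
          t * (Pi.single (⟨k + 1, hk⟩ : Fin (n + 1)) (1 : ℝ) : Fin (n + 1) → ℝ) i := by
      intro i
      by_cases hi : i = ⟨k + 1, hk⟩
      · subst hi
        have := hx.2 ⟨k + 1, hk⟩ (by simp)
        simp [this, abs_of_nonneg h0]
      · simp [Pi.single_apply, hi, abs_mul, abs_of_nonneg (sub_nonneg.2 h1)]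
    simp only [this, Finset.sum_add_distrib, ← Finset.mul_sum, hx.1]
    simp
  · intro i hi
    have h2 : i ≠ ⟨k + 1, hk⟩ := by
      rintro rfl
      simp at hi
    simp [hx.2 i (by omega), Pi.single_apply, h2]

theorem G_dist {n : ℕ} (e x y : Fin (n + 1) → ℝ) (he : ‖e‖ ≤ 1) (hy : ‖y‖ ≤ 1) {t t' : ℝ}
    (h0 : 0 ≤ t) (h1 : t ≤ 1) :
    dist ((1 - t) • x + t • e) ((1 - t') • y + t' • e) ≤ dist x y + 2 * |t' - t| := by
  rw [dist_eq_norm, dist_eq_norm]
  have : (1 - t) • x + t • e - ((1 - t') • y + t' • e)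
      = (1 - t) • (x - y) + (t' - t) • (y - e) := by
    ext i; simp; ring
  rw [this]
  refine (norm_add_le _ _).trans ?_
  rw [norm_smul, norm_smul, Real.norm_eq_abs, Real.norm_eq_abs, abs_of_nonneg (sub_nonneg.2 h1)]
  have h2 : ‖y - e‖ ≤ 2 := (norm_sub_le _ _).trans (by linarith)
  have h3 := norm_nonneg (x - y)
  have h4 := abs_nonneg (t' - t)
  nlinarith

theorem exists_chain (n k : ℕ) (hk : k ≤ n) (ε : ℝ) (hε : 0 < ε) :
    ∃ h ∈ Supp (Small n k ε), bd (h + push (nu n) h) = 0 ∧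
      ∀ ss : List ((Fin (n + 1) → ℝ) × ZMod 2 → ZMod 2), ss.length = k →
        (∀ s ∈ ss, ∀ x, s (nu n x) = s x + 1) → ext1 (W ss) h = 1 := by
  induction k generalizing ε with
  | zero =>
    refine ⟨single [(Pi.single 0 1, 0)] 1, single_mem_supp _ _ ?_, ?_, ?_⟩
    · intro p hp
      simp only [List.mem_singleton] at hp
      subst hp
      refine ⟨⟨?_, ?_⟩, ?_⟩
      · rw [Fin.sum_univ_succ]; simp
      · intro i hi
        have : i ≠ 0 := by rintro rfl; simp at hi
        simp [Pi.single_apply, this]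
      · intro q hq
        simp only [List.mem_singleton] at hq
        subst hq
        simpa using hε.le
    · simp [bd_single, bd0, add_self_chain]
    · intro ss hss _
      rw [List.length_eq_zero_iff] at hss
      subst hss
      simp [W]
  | succ k ih =>
    obtain ⟨h, hs, hc, hw⟩ := ih (by omega) (ε / 2) (by positivity)
    obtain ⟨M, hM⟩ := exists_nat_gt (4 / ε)
    have hM0 : (0 : ℝ) < M := lt_trans (by positivity) hM
    have hM0' : M ≠ 0 := by rintro rfl; simp at hM0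
    have hk' : k + 1 < n + 1 := by omega
    set e : Fin (n + 1) → ℝ := Pi.single (⟨k + 1, hk'⟩ : Fin (n + 1)) (1 : ℝ) with he
    have hen : ‖e‖ ≤ 1 := by rw [he, Pi.norm_single]; simp
    let F : ℕ → (Fin (n + 1) → ℝ) × ZMod 2 → (Fin (n + 1) → ℝ) × ZMod 2 :=
      fun j p => ((1 - (j : ℝ) / M) • p.1 + ((j : ℝ) / M) • e, if j = 0 then p.2 else 0)
    have hF0 : F 0 = id := by
      funext p; simp [F]
    have hFM : F M = fun _ => (e, 0) := by
      funext p; simp [F, hM0', hM0.ne']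
    have hb := step (nu n) F M hF0 (e, 0) hFM h hc
    refine ⟨_, ?_, sym_cycle (nu n) (nu_nu n) h _ hb, ?_⟩
    · have hz : h + push (nu n) h ∈ Supp (Small n k (ε / 2)) := by
        refine Submodule.add_mem _ hs (map_mem_of_supp _ _ _ ?_ _ hs)
        intro l hl
        rw [push_single]
        refine single_mem_supp _ _ ?_
        intro p hp
        obtain ⟨p', hp', rfl⟩ := List.mem_map.1 hp
        refine ⟨neg_mem_K (hl p' hp').1, ?_⟩
        intro q hq
        obtain ⟨q', hq', rfl⟩ := List.mem_map.1 hq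
        simpa [nu] using (hl p' hp').2 q' hq'
      refine Submodule.sum_mem _ ?_
      intro j hj
      rw [Finset.mem_range] at hj
      refine map_mem_of_supp _ _ _ ?_ _ hz
      intro l hl
      rw [pr_single]
      refine Finsupp.supported_mono ?_ (pr0_mem _ _ l)
      intro l' hl'
      have hj1 : ((j + 1 : ℕ) : ℝ) / M ≤ 1 := by
        rw [div_le_one hM0]; exact_mod_cast hj
      have hj0 : (j : ℝ) / M ≤ 1 := by
        rw [div_le_one hM0]; exact_mod_cast hj.le
      have aux : ∀ y ∈ l', ∃ x ∈ l, ∃ t : ℝ, 0 ≤ t ∧ t ≤ 1 ∧ (j : ℝ) / M ≤ t ∧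
          t ≤ (j : ℝ) / M + 1 / M ∧ y.1 = (1 - t) • x.1 + t • e := by
        intro y hy
        obtain ⟨x, hx, h | h⟩ := hl' y hy
        · refine ⟨x, hx, (j : ℝ) / M, by positivity, hj0, le_rfl, ?_, by rw [h]⟩
          have : (0 : ℝ) ≤ 1 / M := by positivity
          linarith
        · refine ⟨x, hx, ((j + 1 : ℕ) : ℝ) / M, by positivity, hj1, ?_, ?_, by rw [h]⟩
          · gcongr; omega
          · push_cast; rw [add_div]
      intro p hp
      obtain ⟨x, hx, t, ht0, ht1, ht2, ht3, hpx⟩ := aux p hp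
      refine ⟨by rw [hpx]; exact G_mem hk' (hl x hx).1 ht0 ht1, ?_⟩
      intro q hq
      obtain ⟨y, hy, t', -, -, ht2', ht3', hqy⟩ := aux q hq
      rw [hpx, hqy]
      refine (G_dist e x.1 y.1 hen (norm_le_of_mem_K (hl y hy).1) ht0 ht1).trans ?_
      have h1 := (hl x hx).2 y hy
      have h2 : |t' - t| ≤ 1 / M := by rw [abs_le]; constructor <;> linarith
      have h3 : 1 / (M : ℝ) ≤ ε / 4 := by
        rw [div_lt_iff₀ hε] at hM
        rw [div_le_div_iff₀ hM0 (by norm_num)]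
        linarith
      linarith
    · intro ss hss hodd
      cases ss with
      | nil => simp at hss
      | cons s ss =>
        rw [← U_bd, hb, U_sym _ _ _ hodd]
        exact hw ss (by simpa using hss) (fun s hs => hodd s (List.mem_cons_of_mem _ hs))

theorem isCompact_K (n k : ℕ) : IsCompact (K n k) := by
  refine Metric.isCompact_of_isClosed_isBounded ?_ ?_
  · have : K n k = {x | ∑ i, |x i| = 1} ∩ ⋂ i : Fin (n + 1), {x | k < i.val → x i = 0} := by
      ext x; simp [K]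
    rw [this]
    refine IsClosed.inter (isClosed_eq (by fun_prop) continuous_const) (isClosed_iInter ?_)
    intro i
    by_cases hi : k < i.val
    · simp only [hi, forall_const]
      exact isClosed_eq (by fun_prop) continuous_const
    · simp [hi]
  · exact (Metric.isBounded_closedBall (x := 0) (r := 1)).subset
      (fun x hx => by simpa using norm_le_of_mem_K hx)

/-- Borsuk-Ulam on the l1 sphere. -/
theorem borsuk_ulam_l1 (n : ℕ) (f : (Fin (n + 1) → ℝ) → Fin n → ℝ)
    (hf : ContinuousOn f {x | ∑ i, |x i| = 1})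
    (hodd : ∀ x, ∑ i, |x i| = 1 → f (-x) = -f x) :
    ∃ x, ∑ i, |x i| = 1 ∧ f x = 0 := by
  classical
  by_contra hne
  push Not at hne
  have hK : K n n = {x | ∑ i, |x i| = 1} := by
    ext x
    simp only [K, Set.mem_setOf_eq, and_iff_left_iff_imp]
    intro _ i hi
    have := i.2
    omega
  have hc := isCompact_K n n
  rw [hK] at hc
  have hne' : ({x | ∑ i, |x i| = 1} : Set (Fin (n + 1) → ℝ)).Nonempty :=
    ⟨Pi.single 0 1, by simp [Fin.sum_univ_succ]⟩
  obtain ⟨x0, hx0, hmin⟩ := hc.exists_isMinOn hne' hf.norm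
  have hm : 0 < ‖f x0‖ := norm_pos_iff.2 (hne x0 hx0)
  obtain ⟨δ, hδ, hu⟩ := Metric.uniformContinuousOn_iff_le.1
    (hc.uniformContinuousOn_of_continuous hf) (‖f x0‖ / 2) (by positivity)
  obtain ⟨h, hs, -, hw⟩ := exists_chain n n le_rfl δ hδ
  let sg : Fin n → (Fin (n + 1) → ℝ) × ZMod 2 → ZMod 2 := fun j p =>
    if ∑ i, |p.1 i| = 1 ∧ 0 < f p.1 j then 1 else if ∑ i, |p.1 i| = 1 ∧ f p.1 j < 0 then 0 else p.2
  have h1 := hw (List.ofFn sg) (by simp) (by
    intro s hs p
    obtain ⟨j, rfl⟩ := List.mem_ofFn.1 hs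
    have z : (1 : ZMod 2) + 1 = 0 := rfl
    by_cases hp : ∑ i, |p.1 i| = 1
    · have e := congrFun (hodd p.1 hp) j
      simp only [Pi.neg_apply] at e
      simp only [sg, nu, Pi.neg_apply, abs_neg, hp, true_and, e]
      rcases lt_trichotomy (f p.1 j) 0 with h | h | h
      · simp [h, h.not_gt]
      · simp [h]
      · simp [h, h.not_gt, z]
    · simp [sg, nu, hp])
  have h0 : ext1 (W (List.ofFn sg)) h ∈ (⊥ : Submodule (ZMod 2) (ZMod 2)) := by
    refine map_mem_of_supp _ _ _ ?_ _ hs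
    intro l hl
    rw [ext1_single, one_smul, Submodule.mem_bot]
    cases l with
    | nil => exact W_nil _
    | cons p l =>
      have hp := hl p List.mem_cons_self
      rw [hK] at hp
      have hpm : ‖f x0‖ ≤ ‖f p.1‖ := hmin hp.1
      obtain ⟨j, hj⟩ : ∃ j, ‖f x0‖ / 2 < |f p.1 j| := by
        by_contra hcon
        push Not at hcon
        have : ‖f p.1‖ ≤ ‖f x0‖ / 2 :=
          (pi_norm_le_iff_of_nonneg (by positivity)).2 (fun j => by simpa using hcon j)
        linarith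
      have hq : ∀ q ∈ p :: l, ∑ i, |q.1 i| = 1 ∧ |f p.1 j - f q.1 j| ≤ ‖f x0‖ / 2 := by
        intro q hq
        have hq1 := (hl q hq).1
        rw [hK] at hq1
        refine ⟨hq1, ?_⟩
        have := hu p.1 hp.1 q.1 hq1 (hp.2 q hq)
        exact (dist_le_pi_dist (f p.1) (f q.1) j).trans this
      rcases lt_abs.1 hj with hj | hj
      · refine W_eq_zero _ (sg j) (List.mem_ofFn.2 ⟨j, rfl⟩) 1 _ ?_
        intro q hq'
        obtain ⟨a, b⟩ := hq q hq'
        have : 0 < f q.1 j := by rw [abs_le] at b; linarith [b.2]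
        simp [sg, a, this]
      · refine W_eq_zero _ (sg j) (List.mem_ofFn.2 ⟨j, rfl⟩) 0 _ ?_
        intro q hq'
        obtain ⟨a, b⟩ := hq q hq'
        have : f q.1 j < 0 := by rw [abs_le] at b; linarith [b.1]
        simp [sg, a, this, this.not_gt]
  rw [Submodule.mem_bot, h1] at h0
  exact one_ne_zero h0

end Pool.Agent.Lib.BorsukUlam
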