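import Mathlib.LinearAlgebra.Finsupp.LinearCombination
import Mathlib.LinearAlgebra.Finsupp.Supported
import Mathlib.Data.ZMod.Basic
import Mathlib.Algebra.CharP.Two
import Mathlib.Algebra.Field.ZMod
import Mathlib.Tactic.Abel
import Mathlib.Tactic.Ring
import Mathlib.Tactic.LinearCombination

/-!
Ordered chains mod 2 on an arbitrary type: boundary, cone, prism operator and the cup product
cochains used in the proof of the Borsuk-Ulam theorem.
-/

namespace Pool.Agent.Lib.BorsukUlam

open Finsupp

/-- Chains mod 2 on lists of points. -/
abbrev Chain (X : Type) : Type := List X →₀ ZMod 2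

variable {X : Type}

theorem add_self_chain (c : Chain X) : c + c = 0 := by
  ext l
  simp [CharTwo.add_self_eq_zero]

/-- The cone operator. -/
noncomputable def cone (x : X) : Chain X →ₗ[ZMod 2] Chain X :=
  Finsupp.lmapDomain (ZMod 2) (ZMod 2) (List.cons x)

/-- Push forward of chains. -/
noncomputable def push (f : X → X) : Chain X →ₗ[ZMod 2] Chain X :=
  Finsupp.lmapDomain (ZMod 2) (ZMod 2) (List.map f)

/-- Linear extension of a map on lists. -/
noncomputable def ext1 {M : Type} [AddCommGroup M] [Module (ZMod 2) M] (g : List X → M) :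
    Chain X →ₗ[ZMod 2] M :=
  Finsupp.linearCombination (ZMod 2) g

@[simp] theorem cone_single (x : X) (l : List X) (a : ZMod 2) :
    cone x (single l a) = single (x :: l) a := by
  simp [cone]

@[simp] theorem push_single (f : X → X) (l : List X) (a : ZMod 2) :
    push f (single l a) = single (l.map f) a := by
  simp [push]

@[simp] theorem ext1_single {M : Type} [AddCommGroup M] [Module (ZMod 2) M] (g : List X → M)
    (l : List X) (a : ZMod 2) : ext1 g (single l a) = a • g l := by
  simp [ext1]

theorem chain_ext {M : Type} [AddCommGroup M] [Module (ZMod 2) M]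
    {F G : Chain X →ₗ[ZMod 2] M} (h : ∀ l, F (single l 1) = G (single l 1)) (c : Chain X) :
    F c = G c := by
  have : F = G := by
    apply Finsupp.lhom_ext
    intro l a
    have e : (single l a : Chain X) = a • single l 1 := by simp
    rw [e, map_smul, map_smul, h]
  rw [this]

/-- Boundary of a list. -/
noncomputable def bd0 : List X → Chain X
  | [] => 0
  | x :: l => single l 1 + cone x (bd0 l)

/-- Boundary operator. -/
noncomputable def bd : Chain X →ₗ[ZMod 2] Chain X := ext1 bd0

theorem bd_single (l : List X) : bd (single l 1) = bd0 l := by simp [bd]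

theorem bd_cone (x : X) (c : Chain X) : bd (cone x c) = c + cone x (bd c) := by
  have := chain_ext (F := bd ∘ₗ cone x) (G := LinearMap.id + cone x ∘ₗ bd)
    (fun l => by simp [bd_single, bd0]) c
  simpa using this

theorem bd_bd0 (l : List X) : bd (bd0 l) = 0 := by
  induction l with
  | nil => simp [bd0]
  | cons x l ih =>
    rw [bd0, map_add, bd_single, bd_cone, ih, map_zero, add_zero, add_self_chain]

theorem bd_bd (c : Chain X) : bd (bd c) = 0 := by
  have := chain_ext (F := bd ∘ₗ bd) (G := 0) (fun l => by simp [bd_single, bd_bd0]) c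
  simpa using this

theorem push_cone (f : X → X) (x : X) (c : Chain X) :
    push f (cone x c) = cone (f x) (push f c) := by
  have := chain_ext (F := push f ∘ₗ cone x) (G := cone (f x) ∘ₗ push f)
    (fun l => by simp) c
  simpa using this

theorem push_bd0 (f : X → X) (l : List X) : push f (bd0 l) = bd0 (l.map f) := by
  induction l with
  | nil => simp [bd0]
  | cons x l ih => simp [bd0, push_cone, ih]

theorem push_bd (f : X → X) (c : Chain X) : push f (bd c) = bd (push f c) := by
  have := chain_ext (F := push f ∘ₗ bd) (G := bd ∘ₗ push f)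
    (fun l => by simp [bd_single, push_bd0]) c
  simpa using this

theorem push_push (f g : X → X) (c : Chain X) : push f (push g c) = push (f ∘ g) c := by
  have := chain_ext (F := push f ∘ₗ push g) (G := push (f ∘ g))
    (fun l => by simp) c
  simpa using this

theorem push_id (c : Chain X) : push id c = c := by
  have := chain_ext (F := push (id : X → X)) (G := LinearMap.id) (fun l => by simp) c
  simpa using this

/-- Prism of a list between two maps. -/
noncomputable def pr0 (f g : X → X) : List X → Chain X
  | [] => 0
  | x :: l => single (f x :: g x :: l.map g) 1 + cone (f x) (pr0 f g l)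

/-- Prism operator. -/
noncomputable def pr (f g : X → X) : Chain X →ₗ[ZMod 2] Chain X := ext1 (pr0 f g)

theorem pr_single (f g : X → X) (l : List X) : pr f g (single l 1) = pr0 f g l := by simp [pr]

theorem pr_cone (f g : X → X) (x : X) (c : Chain X) :
    pr f g (cone x c) = cone (f x) (cone (g x) (push g c)) + cone (f x) (pr f g c) := by
  have := chain_ext (F := pr f g ∘ₗ cone x)
    (G := cone (f x) ∘ₗ cone (g x) ∘ₗ push g + cone (f x) ∘ₗ pr f g)
    (fun l => by simp [pr_single, pr0]) c
  simpa using this

theorem bd_pr0 (f g : X → X) (l : List X) :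
    bd (pr0 f g l) + pr f g (bd0 l) = single (l.map f) 1 + single (l.map g) 1 := by
  induction l with
  | nil => simp [pr0, bd0, add_self_chain]
  | cons x l ih =>
    have e1 : (single (f x :: g x :: l.map g) 1 : Chain X)
        = cone (f x) (cone (g x) (single (l.map g) 1)) := by simp
    have e2 : (single ((x :: l).map f) 1 : Chain X) = cone (f x) (single (l.map f) 1) := by simp
    have e3 : (single ((x :: l).map g) 1 : Chain X) = cone (g x) (single (l.map g) 1) := by simp
    have e4 : bd (single (l.map g) 1) = push g (bd0 l) := by rw [bd_single, push_bd0]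
    have ih' : cone (f x) (bd (pr0 f g l)) + cone (f x) (pr f g (bd0 l))
        = cone (f x) (single (l.map f) 1) + cone (f x) (single (l.map g) 1) := by
      rw [← map_add, ih, map_add]
    rw [pr0, bd0, map_add, map_add, e1, e2, e3, bd_cone, bd_cone, bd_cone, pr_single, pr_cone, e4,
      map_add]
    have z1 := add_self_chain (cone (f x) (cone (g x) (push g (bd0 l))))
    have z2 := add_self_chain (pr0 f g l)
    have z3 := add_self_chain (cone (f x) (single (l.map g) 1))
    linear_combination (norm := abel1) ih' + z1 + z2 + z3

theorem bd_pr (f g : X → X) (c : Chain X) (hc : bd c = 0) :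
    bd (pr f g c) = push f c + push g c := by
  have := chain_ext (F := bd ∘ₗ pr f g + pr f g ∘ₗ bd) (G := push f + push g)
    (fun l => by simpa [pr_single, bd_single] using bd_pr0 f g l) c
  simpa [hc] using this

/-- The cup product of the coboundaries of a list of sign functions. -/
def W : List (X → ZMod 2) → List X → ZMod 2
  | [], [_] => 1
  | [], _ => 0
  | s :: ss, x :: y :: l => (s x + s y) * W ss (y :: l)
  | _ :: _, _ => 0

/-- A primitive of `W (s :: ss)`. -/
def U (s : X → ZMod 2) (ss : List (X → ZMod 2)) : List X → ZMod 2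
  | [] => 0
  | x :: l => s x * W ss (x :: l)

theorem W_nil (ss : List (X → ZMod 2)) : W ss [] = 0 := by
  cases ss <;> simp [W]

theorem ext1_cone (φ : List X → ZMod 2) (x : X) (c : Chain X) :
    ext1 φ (cone x c) = ext1 (fun l => φ (x :: l)) c := by
  have := chain_ext (F := ext1 φ ∘ₗ cone x) (G := ext1 (fun l => φ (x :: l)))
    (fun l => by simp) c
  simpa using this

theorem ext1_mul (φ : List X → ZMod 2) (a : ZMod 2) (c : Chain X) :
    ext1 (fun l => a * φ l) c = a * ext1 φ c := by
  have := chain_ext (F := ext1 (fun l => a * φ l)) (G := a • ext1 φ) (fun l => by simp) c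
  simpa using this

theorem U_bd0_of (s : X → ZMod 2) (ss : List (X → ZMod 2))
    (hA : ∀ l, ext1 (W ss) (bd0 l) = 0) (l : List X) :
    ext1 (U s ss) (bd0 l) = W (s :: ss) l := by
  cases l with
  | nil => simp [bd0, W]
  | cons x l =>
    have h1 := hA (x :: l)
    rw [bd0, map_add, ext1_single, ext1_cone, one_smul] at h1
    rw [bd0, map_add, ext1_single, ext1_cone, one_smul]
    have h2 : ext1 (fun l' => U s ss (x :: l')) (bd0 l)
        = s x * ext1 (fun l' => W ss (x :: l')) (bd0 l) := by
      rw [← ext1_mul]; rfl
    have h3 : ext1 (fun l' => W ss (x :: l')) (bd0 l) = W ss l := by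
      have z := CharTwo.add_self_eq_zero (W ss l)
      linear_combination h1 - z
    rw [h2, h3]
    cases l with
    | nil => simp [U, W, W_nil]
    | cons y l => simp only [U, W]; ring

theorem W_bd0 (ss : List (X → ZMod 2)) (l : List X) : ext1 (W ss) (bd0 l) = 0 := by
  induction ss generalizing l with
  | nil =>
    let ε : List X → ZMod 2 := fun l => match l with | [] => 1 | _ => 0
    have hε : ∀ l, ext1 ε (bd0 l) = W [] l := by
      intro l
      cases l with
      | nil => simp [bd0, W]
      | cons x l =>
        rw [bd0, map_add, ext1_single, ext1_cone, one_smul]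
        have : ext1 (fun l' => ε (x :: l')) (bd0 l) = 0 := by
          have := ext1_mul (fun _ : List X => (0 : ZMod 2)) 0 (bd0 l)
          simpa [ε] using this
        rw [this]
        cases l <;> simp [ε, W]
    have := chain_ext (F := ext1 (W ([] : List (X → ZMod 2)))) (G := ext1 ε ∘ₗ bd)
      (fun l => by simp [bd_single, hε]) (bd0 l)
    rw [this]; simp [bd_bd0]
  | cons s ss ih =>
    have := chain_ext (F := ext1 (W (s :: ss))) (G := ext1 (U s ss) ∘ₗ bd)
      (fun l => by simp [bd_single, U_bd0_of s ss ih]) (bd0 l)
    rw [this]; simp [bd_bd0]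

theorem U_bd (s : X → ZMod 2) (ss : List (X → ZMod 2)) (c : Chain X) :
    ext1 (U s ss) (bd c) = ext1 (W (s :: ss)) c := by
  have := chain_ext (F := ext1 (U s ss) ∘ₗ bd) (G := ext1 (W (s :: ss)))
    (fun l => by simp [bd_single, U_bd0_of s ss (W_bd0 ss)]) c
  simpa using this

theorem W_map (ν : X → X) (ss : List (X → ZMod 2)) (h : ∀ s ∈ ss, ∀ x, s (ν x) = s x + 1)
    (l : List X) : W ss (l.map ν) = W ss l := by
  induction ss generalizing l with
  | nil =>
    match l with
    | [] => rfl
    | [_] => rfl
    | _ :: _ :: _ => rfl
  | cons s ss ih =>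
    match l with
    | [] => rfl
    | [_] => rfl
    | x :: y :: l =>
      have e := ih (fun s hs => h s (List.mem_cons_of_mem _ hs)) (y :: l)
      have hs := h s List.mem_cons_self
      simp only [List.map_cons] at e
      simp only [List.map_cons, W, e, hs]
      have z : (1 : ZMod 2) + 1 = 0 := rfl
      linear_combination (W ss (y :: l)) * z

theorem U_sym (ν : X → X) (s : X → ZMod 2) (ss : List (X → ZMod 2))
    (h : ∀ s' ∈ s :: ss, ∀ x, s' (ν x) = s' x + 1) (c : Chain X) :
    ext1 (U s ss) (c + push ν c) = ext1 (W ss) c := by
  have := chain_ext (F := ext1 (U s ss) ∘ₗ (LinearMap.id + push ν)) (G := ext1 (W ss))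
    (fun l => by
      cases l with
      | nil => simp [U, W_nil]
      | cons x l =>
        have e := W_map ν ss (fun s hs => h s (List.mem_cons_of_mem _ hs)) (x :: l)
        have hs := h s List.mem_cons_self x
        simp only [List.map_cons] at e
        simp only [LinearMap.comp_apply, LinearMap.add_apply, LinearMap.id_apply, push_single,
          map_add, ext1_single, one_smul, List.map_cons, U, e, hs]
        have z := CharTwo.add_self_eq_zero (s x * W ss (x :: l))
        linear_combination z) c
  simpa using this

theorem W_eq_zero (ss : List (X → ZMod 2)) (s : X → ZMod 2) (hs : s ∈ ss) (a : ZMod 2)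
    (l : List X) (hl : ∀ x ∈ l, s x = a) : W ss l = 0 := by
  induction ss generalizing l with
  | nil => simp at hs
  | cons s' ss ih =>
    match l with
    | [] => rfl
    | [_] => rfl
    | x :: y :: l =>
      simp only [W]
      rcases List.mem_cons.1 hs with rfl | hs'
      · rw [hl x (by simp), hl y (by simp), CharTwo.add_self_eq_zero, zero_mul]
      · rw [ih hs' (y :: l) (fun z hz => hl z (List.mem_cons_of_mem _ hz)), mul_zero]

/-- Chains supported on lists with a given property. -/
abbrev Supp (P : List X → Prop) : Submodule (ZMod 2) (Chain X) :=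
  Finsupp.supported (ZMod 2) (ZMod 2) {l | P l}

theorem map_mem_of_supp {M : Type} [AddCommGroup M] [Module (ZMod 2) M]
    (F : Chain X →ₗ[ZMod 2] M) (N : Submodule (ZMod 2) M) (P : List X → Prop)
    (h : ∀ l, P l → F (single l 1) ∈ N) (c : Chain X) (hc : c ∈ Supp P) : F c ∈ N := by
  rw [Supp, Finsupp.supported_eq_span_single] at hc
  have : Submodule.span (ZMod 2) ((fun i => single i (1 : ZMod 2)) '' {l | P l}) ≤ N.comap F := by
    rw [Submodule.span_le]
    rintro _ ⟨l, hl, rfl⟩
    exact h l hl
  exact this hc

theorem single_mem_supp (P : List X → Prop) (l : List X) (h : P l) :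
    (single l 1 : Chain X) ∈ Supp P :=
  Finsupp.single_mem_supported _ _ h

theorem pr0_mem (f g : X → X) (l : List X) :
    pr0 f g l ∈ Supp (fun l' => ∀ y ∈ l', ∃ x ∈ l, y = f x ∨ y = g x) := by
  induction l with
  | nil => simp [pr0]
  | cons x l ih =>
    rw [pr0]
    refine Submodule.add_mem _ (single_mem_supp _ _ ?_) ?_
    · intro y hy
      simp only [List.mem_cons, List.mem_map] at hy
      rcases hy with rfl | rfl | ⟨z, hz, rfl⟩
      · exact ⟨x, by simp, Or.inl rfl⟩
      · exact ⟨x, by simp, Or.inr rfl⟩
      · exact ⟨z, by simp [hz], Or.inr rfl⟩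
    · refine map_mem_of_supp (cone (f x)) _ _ ?_ _ ih
      intro l' hl'
      rw [cone_single]
      refine single_mem_supp _ _ ?_
      intro y hy
      rcases List.mem_cons.1 hy with rfl | hy
      · exact ⟨x, by simp, Or.inl rfl⟩
      · obtain ⟨z, hz, h⟩ := hl' y hy
        exact ⟨z, by simp [hz], h⟩

/-- One step of the filling construction: a discrete null homotopy fills the symmetrised
chain. -/
theorem step (ν : X → X) (F : ℕ → X → X) (M : ℕ) (hF0 : F 0 = id)
    (p : X) (hFM : F M = fun _ => p) (h : Chain X) (hh : bd (h + push ν h) = 0) :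
    bd (∑ j ∈ Finset.range M, pr (F j) (F (j + 1)) (h + push ν h)) = h + push ν h := by
  have key : ∀ N, bd (∑ j ∈ Finset.range N, pr (F j) (F (j + 1)) (h + push ν h))
      = push (F 0) (h + push ν h) + push (F N) (h + push ν h) := by
    intro N
    induction N with
    | zero => simp [add_self_chain]
    | succ N ih =>
      rw [Finset.sum_range_succ, map_add, ih, bd_pr _ _ _ hh]
      have z := add_self_chain (push (F N) (h + push ν h))
      linear_combination (norm := abel1) z
  rw [key, hF0, push_id, hFM, map_add, push_push]
  have : ((fun _ => p) ∘ ν : X → X) = fun _ => p := rfl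
  rw [this, add_self_chain, add_zero]

theorem sym_cycle (ν : X → X) (hν : ∀ x, ν (ν x) = x) (h h' : Chain X)
    (e : bd h' = h + push ν h) : bd (h' + push ν h') = 0 := by
  have hνν : ν ∘ ν = id := funext hν
  rw [map_add, ← push_bd, e, map_add, push_push, hνν, push_id]
  have z := add_self_chain h
  have z2 := add_self_chain (push ν h)
  linear_combination (norm := abel1) z + z2

end Pool.Agent.Lib.BorsukUlam
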